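import Pool.Agent.N637.SLM.Stm
import Pool.Agent.N691.SLK.L2

/-!
# Project SLM (helper637): the place `2`, solvability, `c = 0 mod 8`, `m` not `1 mod 4`

After `Pool/Agent/N691/SLK/L2.lean` (helper691).
-/

set_option autoImplicit false

namespace Pool.Agent.N603.SLM

open Pool.Agent.N637.SLM (Cw S_LT S_L2b)
open Pool.Agent.TH841.SH (LocC)
open Pool.Agent.N637.P21 (sq8)
open Pool.Agent.N954.SLX (sqI norm_res)
open Pool.Agent.N691.SLK (chg odd_sq pt hex clE clO)

/-- the place `2` -/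
theorem t_L2b (hLT : S_LT) : S_L2b := by
  intro m a c hC hsm hc8 hm d1 d2 hs1 hs2 h1 hnorm
  have ha := hC.ha
  obtain ⟨c', hc⟩ : ∃ c', c = 4 * c' := ⟨c / 4, by omega⟩
  have ha2 := odd_sq ha
  have hm0 : m ≠ 0 := hsm.ne_zero
  have hd1 : d1 ≠ 0 := hs1.ne_zero
  have hd2 : d2 ≠ 0 := hs2.ne_zero
  obtain ⟨hT, hA⟩ := hLT ℚ_[2] m a c hm0 hC (hex ha hm0)
  have one1 : IsSquare ((1 : ℤ) : ℚ_[2]) := sq8 (by norm_num)
  -- assembly
  have asm : LocC ℚ_[2] 0 (a ^ 2 * m) (-(c ^ 2 - a ^ 2) * m) d1 1 →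
      LocC ℚ_[2] 0 (a ^ 2 * m) (-(c ^ 2 - a ^ 2) * m) 1 d2 →
      LocC ℚ_[2] 0 (a ^ 2 * m) (-(c ^ 2 - a ^ 2) * m) d1 d2 := by
    intro h1 h2
    have := hA d1 1 1 d2 hd1 one_ne_zero one_ne_zero hd2 h1 h2
    rwa [mul_one, one_mul] at this
  have T1 : IsSquare (d1 : ℚ_[2]) ∨ IsSquare ((d1 : ℚ_[2]) * m) →
      LocC ℚ_[2] 0 (a ^ 2 * m) (-(c ^ 2 - a ^ 2) * m) d1 1 := fun h =>
    hT d1 1 hd1 one_ne_zero (Or.inl ⟨one1, h⟩)
  have T2 : ∀ d : ℤ, d % 8 = 1 → LocC ℚ_[2] 0 (a ^ 2 * m) (-(c ^ 2 - a ^ 2) * m) 1 d := by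
    intro d hd
    refine hT 1 d one_ne_zero (by omega) (Or.inl ⟨sq8 hd, Or.inl one1⟩)
  have sqc : IsSquare (((1 : ℤ) : ℚ_[2]) * (-((c : ℚ_[2]) ^ 2 - (a : ℚ_[2]) ^ 2))) := by
    have h := sq8 (n := a ^ 2 - c ^ 2) (by
      have e : c ^ 2 = 8 * (2 * c' ^ 2) := by rw [hc]; ring
      omega)
    push_cast at h ⊢
    have e : (1 : ℚ_[2]) * (-((c : ℚ_[2]) ^ 2 - (a : ℚ_[2]) ^ 2)) = (a : ℚ_[2]) ^ 2 - c ^ 2 := by
      ring
    rw [e]
    exact h
  -- odd `m`
  have P5 : m % 2 = 1 → ∀ d : ℤ, d % 8 = 5 →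
      LocC ℚ_[2] 0 (a ^ 2 * m) (-(c ^ 2 - a ^ 2) * m) 1 d := by
    intro hm d hd
    refine pt 1 1 0 (1 - 4 * m) (8 * c' ^ 2 * m) ha one_ne_zero (by ring) (by omega)
      (by rw [hc]; ring) one1 ?_
    rw [pow_zero, one_mul]
    refine sq8 ?_
    have h1 : (1 - 4 * m) % 8 = 5 := by omega
    rw [Int.mul_emod, hd, h1]
    norm_num
  have n4 : ∀ z : ℤ, Squarefree z → ¬ (4 : ℤ) ∣ z := by
    intro z hz h4
    have := hz 2 (by norm_num; exact h4)
    rw [Int.isUnit_iff] at this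
    omega
  have hm4 := n4 m hsm
  have hd4 := n4 d2 hs2
  have hm23 : m % 4 = 2 ∨ m % 4 = 3 := by omega
  obtain ⟨α, β, hα, hβ, h16⟩ := norm_res hm23 hnorm
  apply asm (T1 h1)
  rcases hm23 with hm2 | hm3
  · -- even `m`
    obtain ⟨m', hm'⟩ : ∃ m', m = 2 * m' := ⟨m / 2, by omega⟩
    have hm'8 : m' % 8 = 1 ∨ m' % 8 = 3 ∨ m' % 8 = 5 ∨ m' % 8 = 7 := by omega
    have P1 : ∀ d : ℤ, (d * (1 - m)) % 8 = 1 →
        LocC ℚ_[2] 0 (a ^ 2 * m) (-(c ^ 2 - a ^ 2) * m) 1 d := by
      intro d h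
      refine pt 1 0 0 (1 - m) (2 * c' ^ 2 * m) ha one_ne_zero (by ring) (by omega)
        (by rw [hc]; ring) one1 ?_
      rw [pow_zero, one_mul]
      exact sq8 h
    have PT : ∀ d : ℤ, d ≠ 0 → IsSquare ((d : ℚ_[2]) * (-m)) →
        LocC ℚ_[2] 0 (a ^ 2 * m) (-(c ^ 2 - a ^ 2) * m) 1 d := fun d hd h =>
      hT 1 d one_ne_zero hd (Or.inr ⟨h, Or.inl sqc⟩)
    have hcl := clE hm2 hm' (by omega) hα hβ h16
    rcases hcl with hcl | hcl | ⟨e, hcl⟩ | ⟨e, hcl⟩
    · exact T2 _ hcl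
    · refine P1 _ ?_
      rw [Int.mul_emod, hcl]
      rcases hm'8 with h | h | h | h
      · have h5 : (1 - m) % 8 = 7 := by omega
        rw [h5]; norm_num
      · have h5 : (1 - m) % 8 = 3 := by omega
        rw [h5]; norm_num
      · have h5 : (1 - m) % 8 = 7 := by omega
        rw [h5]; norm_num
      · have h5 : (1 - m) % 8 = 3 := by omega
        rw [h5]; norm_num
    · refine PT _ hd2 ?_
      have h6 : (d2 / 2 * (-m')) % 8 = 1 := by
        rw [Int.mul_emod, hcl]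
        rcases hm'8 with h | h | h | h
        · have h5 : (-m') % 8 = 7 := by omega
          rw [h5]; norm_num
        · have h5 : (-m') % 8 = 5 := by omega
          rw [h5]; norm_num
        · have h5 : (-m') % 8 = 3 := by omega
          rw [h5]; norm_num
        · have h5 : (-m') % 8 = 1 := by omega
          rw [h5]; norm_num
      have h7 := sqI (n := d2 * (-m)) 1 _ (by
        rw [hm']; generalize d2 / 2 = z at e; rw [e]; ring) h6
      push_cast at h7
      exact h7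
    · have L1 := P1 (1 - m) (by
        rw [← pow_two]
        exact odd_sq (by omega))
      have L2 := PT (-m) (by omega) (by
        push_cast
        exact ⟨-m, rfl⟩)
      have L3 := hA 1 (1 - m) 1 (-m) one_ne_zero (by omega) one_ne_zero (by omega) L1 L2
      rw [mul_one] at L3
      refine chg _ _ L3 (by norm_num) ?_ ⟨1, by norm_num⟩ ?_
      · have : (1 - m) * (-m) ≠ 0 := mul_ne_zero (by omega) (by omega)
        exact_mod_cast this
      · have h6 : ((1 - m) * (-m') * (d2 / 2)) % 8 = 1 := by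
          rw [Int.mul_emod, Int.mul_emod (1 - m), hcl]
          rcases hm'8 with h | h | h | h
          · have h5 : (-m') % 8 = 7 := by omega
            have h6 : (1 - m) % 8 = 7 := by omega
            have h7 : (2 - m') % 8 = 1 := by omega
            rw [h5, h6, h7]; norm_num
          · have h5 : (-m') % 8 = 5 := by omega
            have h6 : (1 - m) % 8 = 3 := by omega
            have h7 : (2 - m') % 8 = 7 := by omega
            rw [h5, h6, h7]; norm_num
          · have h5 : (-m') % 8 = 3 := by omega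
            have h6 : (1 - m) % 8 = 7 := by omega
            have h7 : (2 - m') % 8 = 5 := by omega
            rw [h5, h6, h7]; norm_num
          · have h5 : (-m') % 8 = 1 := by omega
            have h6 : (1 - m) % 8 = 3 := by omega
            have h7 : (2 - m') % 8 = 3 := by omega
            rw [h5, h6, h7]; norm_num
        have h7 := sqI (n := (1 - m) * (-m) * d2) 1 _ (by
          generalize d2 / 2 = z at e
          rw [e, hm']
          ring) h6
        push_cast at h7 ⊢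
        exact h7
  · -- odd `m`
    obtain ⟨D, hD⟩ : ∃ D, 1 - m = 2 * D := ⟨(1 - m) / 2, by omega⟩
    have hDo : D % 2 = 1 := by omega
    have hD8 : D % 8 = 1 ∨ D % 8 = 3 ∨ D % 8 = 5 ∨ D % 8 = 7 := by omega
    have P1 : ∀ d : ℤ, IsSquare ((d * (2 ^ 1 * D) : ℤ) : ℚ_[2]) →
        LocC ℚ_[2] 0 (a ^ 2 * m) (-(c ^ 2 - a ^ 2) * m) 1 d := by
      intro d h
      refine pt 1 0 1 D (c' ^ 2 * m) ha one_ne_zero (by rw [pow_zero, pow_one]; linarith) hDo
        (by rw [hc]; ring) one1 h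
    have hcl := clO hm3 hD (by omega) hα hβ h16
    rcases hcl with hcl | hcl | ⟨e, hcl⟩ | ⟨e, hcl⟩
    · exact T2 _ hcl
    · exact P5 (by omega) _ hcl
    · refine P1 _ (sqI 1 (d2 / 2 * D) ?_ ?_)
      · generalize d2 / 2 = z at e
        rw [e]
        ring
      · rw [Int.mul_emod, hcl]
        rcases hD8 with h | h | h | h <;> rw [h] <;> norm_num
    · have L1 := P1 (2 * D) ⟨((2 * D : ℤ) : ℚ_[2]), by push_cast; ring⟩
      have L2 := P5 (by omega) 5 (by norm_num)
      have L3 := hA 1 (2 * D) 1 5 one_ne_zero (by omega) one_ne_zero (by norm_num) L1 L2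
      rw [mul_one] at L3
      refine chg _ _ L3 (by norm_num) ?_ ⟨1, by norm_num⟩ ?_
      · have : 2 * D * 5 ≠ 0 := by omega
        exact_mod_cast this
      · have h6 : (5 * D * (d2 / 2)) % 8 = 1 := by
          rw [Int.mul_emod, hcl]
          rcases hD8 with h | h | h | h
          · have h5 : (5 * D) % 8 = 5 := by omega
            rw [h5]; norm_num
          · have h5 : (5 * D) % 8 = 7 := by omega
            rw [h5]; norm_num
          · have h5 : (5 * D) % 8 = 1 := by omega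
            rw [h5]; norm_num
          · have h5 : (5 * D) % 8 = 3 := by omega
            rw [h5]; norm_num
        have h7 := sqI (n := 2 * D * 5 * d2) 1 _ (by
          generalize d2 / 2 = z at e
          rw [e]
          ring) h6
        push_cast at h7 ⊢
        exact h7

end Pool.Agent.N603.SLM
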